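import Mathlib

set_option autoImplicit false

open Complex Finset Set Filter Topology

namespace Pool.Agent.Q160.CritDist

variable {m : ℕ}

/-- a constant times `∏ (x - ζ i)` -/
noncomputable def F (c : ℂ) (ζ : Fin m → ℂ) (x : ℂ) : ℂ := c * ∏ i, (x - ζ i)

/-- the logarithmic derivative of `F` -/
noncomputable def L (ζ : Fin m → ℂ) (x : ℂ) : ℂ := ∑ i, (x - ζ i)⁻¹

/-- the derivative of `L` -/
noncomputable def L' (ζ : Fin m → ℂ) (x : ℂ) : ℂ := ∑ i, -((x - ζ i) ^ 2)⁻¹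

theorem nsq (z : ℂ) : ‖z‖ ^ 2 = z.re ^ 2 + z.im ^ 2 := by
  rw [Complex.sq_norm, Complex.normSq_apply]; ring

theorem F_hasDeriv (c : ℂ) (ζ : Fin m → ℂ) (x : ℂ) (h : ∀ i, x - ζ i ≠ 0) :
    HasDerivAt (F c ζ) (F c ζ x * L ζ x) x := by
  have hd : Differentiable ℂ (fun x => ∏ i, (x - ζ i)) := by fun_prop
  have h1 : logDeriv (fun x => ∏ i, (x - ζ i)) x = ∑ i, logDeriv (fun x => x - ζ i) x := by
    apply logDeriv_prod
    · intro i _; exact h i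
    · intro i _; fun_prop
  have h2 : ∀ i, logDeriv (fun x => x - ζ i) x = (x - ζ i)⁻¹ := by
    intro i
    rw [logDeriv_apply]
    have : deriv (fun x => x - ζ i) x = 1 := ((hasDerivAt_id x).sub_const (ζ i)).deriv
    rw [this, one_div]
  have hne : ∏ i, (x - ζ i) ≠ 0 := Finset.prod_ne_zero_iff.2 (fun i _ => h i)
  have h3 : deriv (fun x => ∏ i, (x - ζ i)) x = (∏ i, (x - ζ i)) * L ζ x := by
    rw [logDeriv_apply] at h1
    rw [div_eq_iff hne] at h1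
    rw [h1, mul_comm]
    congr 1
    exact Finset.sum_congr rfl (fun i _ => h2 i)
  have h4 := (hd x).hasDerivAt.const_mul c
  rw [h3] at h4
  have e : F c ζ x * L ζ x = c * ((∏ i, (x - ζ i)) * L ζ x) := by
    unfold F; ring
  rw [e]
  exact h4

theorem L_hasDeriv (ζ : Fin m → ℂ) (x : ℂ) (h : ∀ i, x - ζ i ≠ 0) :
    HasDerivAt (L ζ) (L' ζ x) x := by
  unfold L L'
  have := HasDerivAt.fun_sum (u := (Finset.univ : Finset (Fin m)))
    (A := fun i x => (x - ζ i)⁻¹) (A' := fun i => -((x - ζ i) ^ 2)⁻¹) (x := x) (by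
      intro i _
      have h1 := ((hasDerivAt_id x).sub_const (ζ i)).fun_inv (h i)
      simpa [neg_div] using h1)
  exact this

theorem F_le {c : ℂ} {ζ : Fin m → ℂ} {x y : ℂ} {q : ℝ}
    (h : ∀ i, ‖x - ζ i‖ ^ 2 ≤ q * ‖y - ζ i‖ ^ 2) : ‖F c ζ x‖ ^ 2 ≤ q ^ m * ‖F c ζ y‖ ^ 2 := by
  have h1 := Finset.prod_le_prod (s := (Finset.univ : Finset (Fin m)))
    (fun i _ => sq_nonneg ‖x - ζ i‖) (fun i _ => h i)
  rw [Finset.prod_mul_distrib, Finset.prod_const, Finset.card_univ, Fintype.card_fin,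
    Finset.prod_pow, Finset.prod_pow, ← norm_prod, ← norm_prod] at h1
  unfold F
  rw [norm_mul, norm_mul, mul_pow, mul_pow]
  calc ‖c‖ ^ 2 * ‖∏ i, (x - ζ i)‖ ^ 2 ≤ ‖c‖ ^ 2 * (q ^ m * ‖∏ i, (y - ζ i)‖ ^ 2) :=
        mul_le_mul_of_nonneg_left h1 (by positivity)
    _ = _ := by ring

theorem F_ge {c : ℂ} {ζ : Fin m → ℂ} {x y : ℂ} {q : ℝ} (hq : 0 ≤ q)
    (h : ∀ i, q * ‖x - ζ i‖ ^ 2 ≤ ‖y - ζ i‖ ^ 2) : q ^ m * ‖F c ζ x‖ ^ 2 ≤ ‖F c ζ y‖ ^ 2 := by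
  have h1 := Finset.prod_le_prod (s := (Finset.univ : Finset (Fin m)))
    (fun i _ => mul_nonneg hq (sq_nonneg ‖x - ζ i‖)) (fun i _ => h i)
  rw [Finset.prod_mul_distrib, Finset.prod_const, Finset.card_univ, Fintype.card_fin,
    Finset.prod_pow, Finset.prod_pow, ← norm_prod, ← norm_prod] at h1
  unfold F
  rw [norm_mul, norm_mul, mul_pow, mul_pow]
  calc q ^ m * (‖c‖ ^ 2 * ‖∏ i, (x - ζ i)‖ ^ 2) = ‖c‖ ^ 2 * (q ^ m * ‖∏ i, (x - ζ i)‖ ^ 2) := by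
        ring
    _ ≤ _ := mul_le_mul_of_nonneg_left h1 (by positivity)

/-- the hypotheses on the critical points -/
structure Dat (m : ℕ) (a κ s : ℝ) (c : ℂ) (ζ : Fin m → ℂ) (P : ℂ → ℂ) : Prop where
  ha0 : 0 < a
  ha1 : a < 1
  hκ0 : 0 < κ
  hκ : κ ≤ a / 4
  hκ1 : κ ≤ (1 - a) / 8
  hs0 : 0 < s
  hs : s ≤ a ^ 2 * (1 - a) ^ 2 / 10 ^ 7
  h1 : ∀ i, ‖ζ i‖ ≤ 1
  h2 : ∀ i, 1 - a * κ / 2 ≤ ‖ζ i - a‖
  hP : ∀ x, HasDerivAt P (F c ζ x) x
  hPa : P a = 0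
  hm : 1 ≤ m
  hm1 : (1152 / a) ^ 2 ≤ (1 + a * s / 64) ^ m
  hm2 : (16 * (m : ℝ)) ^ 2 ≤ (1 + s * κ / 4) ^ m

namespace Dat

variable {a κ s : ℝ} {c : ℂ} {ζ : Fin m → ℂ} {P : ℂ → ℂ} (D : Dat m a κ s c ζ P)

include D

theorem s_le1 : s ≤ a ^ 2 / 10 ^ 7 := by
  have := D.hs
  have h0 := D.ha0
  have h1 := D.ha1
  have h3 : (1 - a) ^ 2 ≤ 1 := by nlinarith
  have : a ^ 2 * (1 - a) ^ 2 ≤ a ^ 2 * 1 := mul_le_mul_of_nonneg_left h3 (by positivity)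
  linarith

theorem s_le2 : s ≤ a / 10 ^ 7 := by
  have := D.s_le1
  have h0 := D.ha0
  have h1 := D.ha1
  nlinarith

theorem s_le3 : s ≤ (1 - a) / 10 ^ 7 := by
  have := D.hs
  have h0 := D.ha0
  have h1 := D.ha1
  have h3 : (1 - a) ^ 2 ≤ (1 - a) := by nlinarith
  have h4 : a ^ 2 ≤ 1 := by nlinarith
  have : a ^ 2 * (1 - a) ^ 2 ≤ 1 * (1 - a) := mul_le_mul h4 h3 (by positivity) (by positivity)
  linarith

theorem sq1 (i : Fin m) : (ζ i).re ^ 2 + (ζ i).im ^ 2 ≤ 1 := by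
  have := D.h1 i
  rw [← nsq]
  have := norm_nonneg (ζ i)
  nlinarith

theorem sq2 (i : Fin m) : (1 - a * κ / 2) ^ 2 ≤ ((ζ i).re - a) ^ 2 + (ζ i).im ^ 2 := by
  have h := D.h2 i
  have h0 := D.ha0
  have h1 := D.ha1
  have h2 := D.hκ
  have h3 : 0 ≤ 1 - a * κ / 2 := by nlinarith
  have h4 : (1 - a * κ / 2) ^ 2 ≤ ‖ζ i - a‖ ^ 2 := by gcongr
  rw [nsq] at h4
  simpa using h4

theorem re_le (i : Fin m) : 2 * (ζ i).re ≤ a + κ := by
  have h0 := D.ha0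
  have h1 := D.sq1 i
  have h2 := D.sq2 i
  have h3 : 2 * a * (ζ i).re ≤ a ^ 2 + a * κ := by nlinarith [sq_nonneg (a * κ)]
  have h4 : a * (2 * (ζ i).re) ≤ a * (a + κ) := by linarith
  exact le_of_mul_le_mul_left h4 h0

theorem re_le' (i : Fin m) : a / 4 ≤ a - (ζ i).re := by
  have h0 := D.ha0
  have h1 := D.re_le i
  have h2 := D.hκ
  linarith

theorem im_le (i : Fin m) : |(ζ i).im| ≤ 1 := by
  have := D.sq1 i
  rw [abs_le]
  constructor <;> nlinarith [sq_nonneg (ζ i).re]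

theorem rho_half : 1 / 2 ≤ 1 - a * κ / 2 := by
  have h0 := D.ha0
  have h1 := D.ha1
  have h2 := D.hκ
  have h3 := D.hκ0
  nlinarith

theorem near {x : ℂ} (hx : ‖x - a‖ ≤ a / 8) (i : Fin m) :
    a / 8 ≤ (x - ζ i).re ∧ 1 / 4 ≤ ‖x - ζ i‖ ∧ ‖x - ζ i‖ ≤ 3 := by
  have h0 := D.ha0
  have h1 := D.ha1
  refine ⟨?_, ?_, ?_⟩
  · have h2 := D.re_le' i
    have h3 : |(x - a).re| ≤ a / 8 := (Complex.abs_re_le_norm _).trans hx
    rw [abs_le] at h3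
    simp at h3 ⊢
    linarith [h3.1]
  · have h2 := D.h2 i
    have h3 := D.rho_half
    have h4 : ‖ζ i - a‖ ≤ ‖x - ζ i‖ + ‖x - a‖ := by
      have : ζ i - a = -(x - ζ i) + (x - a) := by ring
      rw [this]
      exact (norm_add_le _ _).trans (by rw [norm_neg])
    linarith
  · have h4 : ‖x - ζ i‖ ≤ ‖x - a‖ + ‖(a : ℂ)‖ + ‖ζ i‖ := by
      have : x - ζ i = (x - a) + a - ζ i := by ring
      rw [this]
      exact (norm_sub_le _ _).trans (by gcongr; exact norm_add_le _ _)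
    have h5 : ‖(a : ℂ)‖ = a := by rw [Complex.norm_real, Real.norm_of_nonneg h0.le]
    have := D.h1 i
    linarith

theorem ne0 {x : ℂ} (hx : ‖x - a‖ ≤ a / 8) (i : Fin m) : x - ζ i ≠ 0 := by
  have := (D.near hx i).2.1
  intro h
  rw [h, norm_zero] at this
  linarith

theorem L_lb {x : ℂ} (hx : ‖x - a‖ ≤ a / 8) : (m : ℝ) * a / 72 ≤ ‖L ζ x‖ := by
  have h0 := D.ha0
  refine le_trans ?_ ((Complex.abs_re_le_norm (L ζ x)).trans' (le_abs_self _))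
  unfold L
  rw [Complex.re_sum]
  have : ∀ i ∈ (Finset.univ : Finset (Fin m)), a / 72 ≤ ((x - ζ i)⁻¹).re := by
    intro i _
    obtain ⟨h1, h2, h3⟩ := D.near hx i
    rw [Complex.inv_re, ← Complex.sq_norm, le_div_iff₀ (by positivity)]
    have : ‖x - ζ i‖ ^ 2 ≤ 9 := by nlinarith
    nlinarith
  have h2 := Finset.card_nsmul_le_sum _ _ _ this
  rw [Finset.card_univ, Fintype.card_fin, nsmul_eq_mul] at h2
  linarith

theorem L_ub {x : ℂ} (hx : ‖x - a‖ ≤ a / 8) : ‖L ζ x‖ ≤ 4 * m := by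
  unfold L
  refine (norm_sum_le _ _).trans ?_
  have : ∀ i ∈ (Finset.univ : Finset (Fin m)), ‖(x - ζ i)⁻¹‖ ≤ 4 := by
    intro i _
    obtain ⟨h1, h2, h3⟩ := D.near hx i
    rw [norm_inv]
    rw [inv_le_comm₀ (by linarith) (by norm_num)]
    linarith
  have h2 := Finset.sum_le_card_nsmul _ _ _ this
  rw [Finset.card_univ, Fintype.card_fin, nsmul_eq_mul] at h2
  linarith

theorem L'_ub {x : ℂ} (hx : ‖x - a‖ ≤ a / 8) : ‖L' ζ x‖ ≤ 16 * m := by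
  unfold L'
  refine (norm_sum_le _ _).trans ?_
  have : ∀ i ∈ (Finset.univ : Finset (Fin m)), ‖-((x - ζ i) ^ 2)⁻¹‖ ≤ 16 := by
    intro i _
    obtain ⟨h1, h2, h3⟩ := D.near hx i
    rw [norm_neg, norm_inv, norm_pow]
    rw [inv_le_comm₀ (by positivity) (by norm_num)]
    nlinarith
  have h2 := Finset.sum_le_card_nsmul _ _ _ this
  rw [Finset.card_univ, Fintype.card_fin, nsmul_eq_mul] at h2
  linarith

theorem m_pos : (0 : ℝ) < m := by exact_mod_cast D.hm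

theorem L_ne {x : ℂ} (hx : ‖x - a‖ ≤ a / 8) : L ζ x ≠ 0 := by
  have := D.L_lb hx
  have h0 := D.ha0
  have h1 := D.m_pos
  intro h
  rw [h, norm_zero] at this
  have : 0 < (m : ℝ) * a / 72 := by positivity
  linarith

theorem ratio {x : ℂ} (hx : ‖x - a‖ ≤ a / 8) :
    ‖L' ζ x / L ζ x ^ 2‖ ≤ 82944 / (a ^ 2 * m) := by
  have h0 := D.ha0
  have h1 := D.m_pos
  have h2 := D.L_lb hx
  have h3 := D.L'_ub hx
  rw [norm_div, norm_pow]
  have h4 : ((m : ℝ) * a / 72) ^ 2 ≤ ‖L ζ x‖ ^ 2 := by gcongr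
  calc ‖L' ζ x‖ / ‖L ζ x‖ ^ 2 ≤ (16 * m) / ((m : ℝ) * a / 72) ^ 2 := by
        gcongr
    _ = 82944 / (a ^ 2 * m) := by
        field_simp
        norm_num

theorem Phi_deriv {x : ℂ} (hx : ‖x - a‖ ≤ a / 8) :
    HasDerivAt (fun x => P x - F c ζ x / L ζ x) (F c ζ x * (L' ζ x / L ζ x ^ 2)) x := by
  have h1 := D.hP x
  have h2 := F_hasDeriv c ζ x (D.ne0 hx)
  have h3 := L_hasDeriv ζ x (D.ne0 hx)
  have hne := D.L_ne hx
  have h4 := h1.sub (h2.div h3 hne)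
  have e : F c ζ x * (L' ζ x / L ζ x ^ 2) =
      F c ζ x - (F c ζ x * L ζ x * L ζ x - F c ζ x * L' ζ x) / L ζ x ^ 2 := by
    field_simp
    ring
  rw [e]
  exact h4

theorem Phi_seg {x y : ℂ} (hx : ‖x - a‖ ≤ a / 8) (hy : ‖y - a‖ ≤ a / 8) {G : ℝ}
    (hG : ∀ p ∈ segment ℝ x y, ‖F c ζ p‖ ≤ G) :
    ‖(P y - F c ζ y / L ζ y) - (P x - F c ζ x / L ζ x)‖ ≤ G * (82944 / (a ^ 2 * m)) * ‖y - x‖ := by
  have hball : segment ℝ x y ⊆ Metric.closedBall (a : ℂ) (a / 8) :=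
    (convex_closedBall _ _).segment_subset (by simpa [dist_eq_norm] using hx)
      (by simpa [dist_eq_norm] using hy)
  have h0 := D.ha0
  have h1 := D.m_pos
  refine Convex.norm_image_sub_le_of_norm_hasDerivWithin_le
    (f := fun x => P x - F c ζ x / L ζ x) (f' := fun x => F c ζ x * (L' ζ x / L ζ x ^ 2))
    (s := segment ℝ x y) ?_ ?_ (convex_segment x y) (left_mem_segment ℝ x y)
    (right_mem_segment ℝ x y)
  · intro p hp
    have hp' : ‖p - a‖ ≤ a / 8 := by simpa [dist_eq_norm] using hball hp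
    exact (D.Phi_deriv hp').hasDerivWithinAt
  · intro p hp
    have hp' : ‖p - a‖ ≤ a / 8 := by simpa [dist_eq_norm] using hball hp
    rw [norm_mul]
    have h3 := hG p hp
    have h4 := D.ratio hp'
    exact mul_le_mul h3 h4 (norm_nonneg _) ((norm_nonneg _).trans h3)

theorem left {x : ℂ} {y : ℝ} (hy0 : 0 ≤ y) (hy : y ≤ a / 16) (hx : x.re = a - y)
    (hi : |x.im| ≤ a * y / 8) (i : Fin m) :
    ‖x - ζ i‖ ^ 2 ≤ ‖(a : ℂ) - ζ i‖ ^ 2 - a * y / 8 := by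
  have h0 := D.ha0
  have h1 := D.ha1
  have h2 := D.re_le' i
  have h3 := D.im_le i
  rw [nsq, nsq]
  simp only [sub_re, sub_im, ofReal_re, ofReal_im, zero_sub, hx]
  have h4 : |x.im * (ζ i).im| ≤ a * y / 8 := by
    rw [abs_mul]
    calc |x.im| * |(ζ i).im| ≤ (a * y / 8) * 1 := mul_le_mul hi h3 (abs_nonneg _) (by positivity)
      _ = _ := by ring
  have h5 : x.im ^ 2 ≤ y ^ 2 := by
    rw [← sq_abs]
    have : |x.im| ≤ y := hi.trans (by nlinarith)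
    gcongr
  have h6 := (abs_le.1 h4).1
  have h7 : y * (a / 4) ≤ y * (a - (ζ i).re) := by gcongr
  have h8 : y * y ≤ y * (a / 16) := by gcongr
  nlinarith

theorem right {x : ℂ} {y : ℝ} (hy0 : 0 ≤ y) (hx : x.re = a + y)
    (hi : |x.im| ≤ a * y / 8) (i : Fin m) :
    ‖(a : ℂ) - ζ i‖ ^ 2 + a * y / 4 ≤ ‖x - ζ i‖ ^ 2 := by
  have h0 := D.ha0
  have h1 := D.ha1
  have h2 := D.re_le' i
  have h3 := D.im_le i
  rw [nsq, nsq]
  simp only [sub_re, sub_im, ofReal_re, ofReal_im, zero_sub, hx]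
  have h4 : |x.im * (ζ i).im| ≤ a * y / 8 := by
    rw [abs_mul]
    calc |x.im| * |(ζ i).im| ≤ (a * y / 8) * 1 := mul_le_mul hi h3 (abs_nonneg _) (by positivity)
      _ = _ := by ring
  have h6 := (abs_le.1 h4).2
  have h7 : y * (a / 4) ≤ y * (a - (ζ i).re) := by gcongr
  nlinarith [sq_nonneg x.im, sq_nonneg y]

theorem right_mono {x : ℂ} {y t : ℝ} (hy0 : 0 ≤ y) (hx : x.re = a + y)
    (hi : |x.im| ≤ a * y / 8) (ht0 : 0 ≤ t) (ht1 : t ≤ 1) (i : Fin m) :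
    ‖((a : ℂ) + t * (x - a)) - ζ i‖ ^ 2 ≤ ‖x - ζ i‖ ^ 2 := by
  have h0 := D.ha0
  have h1 := D.ha1
  have h2 := D.re_le' i
  have h3 := D.im_le i
  rw [nsq, nsq]
  simp only [sub_re, sub_im, add_re, add_im, mul_re, mul_im, ofReal_re, ofReal_im, hx]
  have h4 : |x.im * (ζ i).im| ≤ a * y / 8 := by
    rw [abs_mul]
    calc |x.im| * |(ζ i).im| ≤ (a * y / 8) * 1 := mul_le_mul hi h3 (abs_nonneg _) (by positivity)
      _ = _ := by ring
  have h6 := (abs_le.1 h4).2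
  have h7 : y * (a / 4) ≤ y * (a - (ζ i).re) := by gcongr
  have h8 : 0 ≤ y * (a - (ζ i).re) - x.im * (ζ i).im := by
    have : 0 ≤ a * y := by positivity
    linarith
  have h9 : 0 ≤ (1 - t) * (y * (a - (ζ i).re) - x.im * (ζ i).im) := mul_nonneg (by linarith) h8
  have h10 : 0 ≤ (1 - t ^ 2) * (y ^ 2 + x.im ^ 2) := mul_nonneg (by nlinarith) (by positivity)
  nlinarith

end Dat

end Pool.Agent.Q160.CritDist
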