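import Pool.Agent.Q160.CD1

set_option autoImplicit false

open Complex Finset Set Filter Topology

namespace Pool.Agent.Q160.CritDist

variable {m : ℕ}

theorem le_of_sq_le_sq {x y : ℝ} (h : x ^ 2 ≤ y ^ 2) (hy : 0 ≤ y) : x ≤ y :=
  (abs_le_of_sq_le_sq h hy).trans' (le_abs_self x)

namespace Dat

variable {a κ s : ℝ} {c : ℂ} {ζ : Fin m → ℂ} {P : ℂ → ℂ} (D : Dat m a κ s c ζ P)

include D

theorem dist_sq_le (i : Fin m) : ‖(a : ℂ) - ζ i‖ ^ 2 ≤ 4 := by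
  have h0 := D.ha0
  have h1 := D.ha1
  have h5 : ‖(a : ℂ)‖ = a := by rw [Complex.norm_real, Real.norm_of_nonneg h0.le]
  have h6 : ‖(a : ℂ) - ζ i‖ ≤ 2 := by
    refine (norm_sub_le _ _).trans ?_
    have := D.h1 i
    linarith
  have := norm_nonneg ((a : ℂ) - ζ i)
  nlinarith

theorem mem_a : ‖(a : ℂ) - a‖ ≤ a / 8 := by
  have := D.ha0
  rw [sub_self, norm_zero]; positivity

theorem mem_x {x : ℂ} (hn : ‖x - a‖ ≤ 4 * s) : ‖x - a‖ ≤ a / 8 := by
  have := D.s_le2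
  have := D.ha0
  linarith

theorem quot_lb {x : ℂ} (hx : ‖x - a‖ ≤ a / 8) : ‖F c ζ x‖ / (4 * m) ≤ ‖F c ζ x / L ζ x‖ := by
  rw [norm_div]
  have h1 := D.L_ub hx
  have h2 : 0 < ‖L ζ x‖ := norm_pos_iff.2 (D.L_ne hx)
  gcongr

theorem quot_ub {x : ℂ} (hx : ‖x - a‖ ≤ a / 8) :
    ‖F c ζ x / L ζ x‖ ≤ ‖F c ζ x‖ * (1152 / a) / (16 * m) := by
  rw [norm_div]
  have h0 := D.ha0
  have h1 := D.L_lb hx
  have h2 := D.m_pos
  calc ‖F c ζ x‖ / ‖L ζ x‖ ≤ ‖F c ζ x‖ / ((m : ℝ) * a / 72) := by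
        gcongr
    _ = _ := by
        field_simp
        ring

theorem small_step {G r : ℝ} (hG : 0 ≤ G) (hr : r ≤ 4 * s) :
    G * (82944 / (a ^ 2 * m)) * r ≤ G / (16 * m) := by
  have h0 := D.ha0
  have h1 := D.s_le1
  have h2 := D.m_pos
  have h3 := D.hs0
  calc G * (82944 / (a ^ 2 * m)) * r ≤ G * (82944 / (a ^ 2 * m)) * (4 * (a ^ 2 / 10 ^ 7)) := by
        gcongr
        linarith
    _ = G / m * (331776 / 10 ^ 7) := by
        field_simp
        ring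
    _ ≤ G / m * (1 / 16) := mul_le_mul_of_nonneg_left (by norm_num) (by positivity)
    _ = _ := by
        field_simp

theorem low_left {x : ℂ} {y : ℝ} (hy0 : s / 2 ≤ y) (hy : y ≤ 4 * s) (hx : x.re = a - y)
    (hi : |x.im| ≤ a * y / 8) (hn : ‖x - a‖ ≤ 4 * s) :
    ‖F c ζ a‖ / (8 * m) ≤ ‖P x‖ ∧ ‖P x‖ ≤ ‖F c ζ a‖ := by
  have h0 := D.ha0
  have h1 := D.ha1
  have hs := D.hs0
  have hs2 := D.s_le2
  have hm := D.m_pos
  have hyp : 0 < y := by linarith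
  have hxb := D.mem_x hn
  have hseg : ∀ p ∈ segment ℝ (a : ℂ) x, ‖F c ζ p‖ ≤ ‖F c ζ a‖ := by
    intro p hp
    rw [segment_eq_image'] at hp
    obtain ⟨t, ⟨ht0, ht1⟩, rfl⟩ := hp
    have h2 := F_le (c := c) (ζ := ζ) (x := (a : ℂ) + t • (x - a)) (y := a) (q := 1) (by
      intro i
      have := D.left (x := (a : ℂ) + t • (x - a)) (y := t * y) (by positivity) (by nlinarith)
        (by simp [hx]; ring) (by
          simp only [Complex.real_smul, add_im, ofReal_im, mul_im, ofReal_re, sub_im]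
          simp only [zero_mul, add_zero, zero_add, sub_zero]
          rw [abs_mul, abs_of_nonneg ht0]
          calc t * |x.im| ≤ t * (a * y / 8) := by gcongr
            _ = _ := by ring) i
      have : 0 ≤ a * (t * y) / 8 := by positivity
      linarith)
    rw [one_pow, one_mul] at h2
    exact le_of_sq_le_sq h2 (norm_nonneg _)
  have hdec : ‖F c ζ x‖ * (1152 / a) ≤ ‖F c ζ a‖ := by
    have h2 := F_le (c := c) (ζ := ζ) (x := x) (y := a) (q := 1 - a * s / 64) (by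
      intro i
      have h3 := D.left hyp.le (by linarith) hx hi i
      have h4 := D.dist_sq_le i
      have h5 : a * s / 16 ≤ a * y / 8 := by nlinarith
      have h6 : ‖(a : ℂ) - ζ i‖ ^ 2 * (a * s / 64) ≤ 4 * (a * s / 64) := by gcongr
      nlinarith)
    have h3 := D.hm1
    have h4 : (1 - a * s / 64) ^ m * (1 + a * s / 64) ^ m ≤ 1 := by
      rw [← mul_pow]
      apply pow_le_one₀
      · have : a * s ≤ 1 := by nlinarith
        have : 0 ≤ a * s := by positivity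
        nlinarith
      · nlinarith [sq_nonneg (a * s)]
    have h5 : (‖F c ζ x‖ * (1152 / a)) ^ 2 ≤ ‖F c ζ a‖ ^ 2 := by
      rw [mul_pow]
      calc ‖F c ζ x‖ ^ 2 * (1152 / a) ^ 2 ≤ ((1 - a * s / 64) ^ m * ‖F c ζ a‖ ^ 2) *
            (1 + a * s / 64) ^ m := by
            gcongr
            exact (sq_nonneg _).trans h2
        _ = ((1 - a * s / 64) ^ m * (1 + a * s / 64) ^ m) * ‖F c ζ a‖ ^ 2 := by ring
        _ ≤ 1 * ‖F c ζ a‖ ^ 2 := by gcongr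
        _ = _ := one_mul _
    exact le_of_sq_le_sq h5 (norm_nonneg _)
  constructor
  · have h2 := D.Phi_seg D.mem_a hxb hseg
    have h3 := D.small_step (norm_nonneg (F c ζ a)) hn
    have h4 := D.quot_lb D.mem_a
    have h5 := D.quot_ub hxb
    have h6 : ‖F c ζ x‖ * (1152 / a) / (16 * m) ≤ ‖F c ζ a‖ / (16 * m) := by gcongr
    have h7 : ‖F c ζ a / L ζ a‖ ≤ ‖(P x - F c ζ x / L ζ x) - (P a - F c ζ a / L ζ a)‖ +
        ‖P x‖ + ‖F c ζ x / L ζ x‖ := by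
      have e : F c ζ a / L ζ a = ((P x - F c ζ x / L ζ x) - (P a - F c ζ a / L ζ a)) - P x +
          F c ζ x / L ζ x := by
        rw [D.hPa]; ring
      calc ‖F c ζ a / L ζ a‖ = ‖((P x - F c ζ x / L ζ x) - (P a - F c ζ a / L ζ a)) - P x +
          F c ζ x / L ζ x‖ := by rw [← e]
        _ ≤ _ := (norm_add_le _ _).trans (by gcongr; exact norm_sub_le _ _)
    have e8 : ‖F c ζ a‖ / (4 * m) = ‖F c ζ a‖ / m * (1 / 4) := by field_simp
    have e9 : ‖F c ζ a‖ / (8 * m) = ‖F c ζ a‖ / m * (1 / 8) := by field_simp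
    have e10 : ‖F c ζ a‖ / (16 * m) = ‖F c ζ a‖ / m * (1 / 16) := by field_simp
    rw [e8] at h4
    rw [e9]
    rw [e10] at h3 h6
    linarith
  · have h2 := Convex.norm_image_sub_le_of_norm_hasDerivWithin_le
      (f := P) (f' := F c ζ) (s := segment ℝ (a : ℂ) x)
      (fun p _ => (D.hP p).hasDerivWithinAt) hseg (convex_segment _ _) (left_mem_segment ℝ _ _)
      (right_mem_segment ℝ _ _)
    rw [D.hPa, sub_zero] at h2
    refine h2.trans ?_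
    calc ‖F c ζ a‖ * ‖x - a‖ ≤ ‖F c ζ a‖ * 1 := by
          gcongr; linarith
      _ = _ := mul_one _

theorem low_right {x : ℂ} {y : ℝ} (hy0 : s / 2 ≤ y) (hx : x.re = a + y)
    (hi : |x.im| ≤ a * y / 8) (hn : ‖x - a‖ ≤ 4 * s) :
    ‖F c ζ x‖ / (8 * m) ≤ ‖P x‖ ∧ (1 + a * s / 32) ^ m * ‖F c ζ a‖ ^ 2 ≤ ‖F c ζ x‖ ^ 2 := by
  have h0 := D.ha0
  have h1 := D.ha1
  have hs := D.hs0
  have hs2 := D.s_le2
  have hm := D.m_pos
  have hyp : 0 < y := by linarith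
  have hxb := D.mem_x hn
  have hseg : ∀ p ∈ segment ℝ (a : ℂ) x, ‖F c ζ p‖ ≤ ‖F c ζ x‖ := by
    intro p hp
    rw [segment_eq_image'] at hp
    obtain ⟨t, ⟨ht0, ht1⟩, rfl⟩ := hp
    have h2 := F_le (c := c) (ζ := ζ) (x := (a : ℂ) + t • (x - a)) (y := x) (q := 1) (by
      intro i
      have := D.right_mono hyp.le hx hi ht0 ht1 i
      rw [one_mul, Complex.real_smul]
      exact this)
    rw [one_pow, one_mul] at h2
    exact le_of_sq_le_sq h2 (norm_nonneg _)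
  have hinc : (1 + a * s / 32) ^ m * ‖F c ζ a‖ ^ 2 ≤ ‖F c ζ x‖ ^ 2 := by
    refine F_ge (by positivity) (fun i => ?_)
    have h3 := D.right hyp.le hx hi i
    have h4 := D.dist_sq_le i
    have h5 : a * s / 8 ≤ a * y / 4 := by nlinarith
    have h6 : ‖(a : ℂ) - ζ i‖ ^ 2 * (a * s / 32) ≤ 4 * (a * s / 32) := by gcongr
    nlinarith
  refine ⟨?_, hinc⟩
  have hdec : ‖F c ζ a‖ * (1152 / a) ≤ ‖F c ζ x‖ := by
    have h3 := D.hm1
    have h5 : (‖F c ζ a‖ * (1152 / a)) ^ 2 ≤ ‖F c ζ x‖ ^ 2 := by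
      rw [mul_pow]
      calc ‖F c ζ a‖ ^ 2 * (1152 / a) ^ 2 ≤ ‖F c ζ a‖ ^ 2 * (1 + a * s / 64) ^ m := by
            gcongr
        _ ≤ ‖F c ζ a‖ ^ 2 * (1 + a * s / 32) ^ m := by
            gcongr
            norm_num
        _ = (1 + a * s / 32) ^ m * ‖F c ζ a‖ ^ 2 := by ring
        _ ≤ _ := hinc
    exact le_of_sq_le_sq h5 (norm_nonneg _)
  have h2 := D.Phi_seg D.mem_a hxb hseg
  have h3 := D.small_step (norm_nonneg (F c ζ x)) hn
  have h4 := D.quot_lb hxb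
  have h5 := D.quot_ub D.mem_a
  have h6 : ‖F c ζ a‖ * (1152 / a) / (16 * m) ≤ ‖F c ζ x‖ / (16 * m) := by gcongr
  have h7 : ‖F c ζ x / L ζ x‖ ≤ ‖(P x - F c ζ x / L ζ x) - (P a - F c ζ a / L ζ a)‖ +
      ‖P x‖ + ‖F c ζ a / L ζ a‖ := by
    have e : F c ζ x / L ζ x = (-((P x - F c ζ x / L ζ x) - (P a - F c ζ a / L ζ a)) + P x) +
        F c ζ a / L ζ a := by
      rw [D.hPa]; ring
    calc ‖F c ζ x / L ζ x‖ = ‖(-((P x - F c ζ x / L ζ x) - (P a - F c ζ a / L ζ a)) + P x) +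
        F c ζ a / L ζ a‖ := by rw [← e]
      _ ≤ ‖-((P x - F c ζ x / L ζ x) - (P a - F c ζ a / L ζ a))‖ + ‖P x‖ + ‖F c ζ a / L ζ a‖ :=
          (norm_add_le _ _).trans (by gcongr; exact norm_add_le _ _)
      _ = _ := by rw [norm_neg]
  have e8 : ‖F c ζ x‖ / (4 * m) = ‖F c ζ x‖ / m * (1 / 4) := by field_simp
  have e9 : ‖F c ζ x‖ / (8 * m) = ‖F c ζ x‖ / m * (1 / 8) := by field_simp
  have e10 : ‖F c ζ x‖ / (16 * m) = ‖F c ζ x‖ / m * (1 / 16) := by field_simp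
  rw [e8] at h4
  rw [e9]
  rw [e10] at h3 h6
  linarith

theorem low_t1 : ‖F c ζ a‖ / (16 * m) ≤ ‖P ((2 * κ : ℝ) : ℂ)‖ := by
  have h0 := D.ha0
  have h1 := D.ha1
  have hs := D.hs0
  have hs2 := D.s_le2
  have hm := D.m_pos
  have hκ := D.hκ
  have hκ0 := D.hκ0
  have hle : 2 * κ ≤ a - s := by linarith
  have hb : ∀ x : ℝ, 2 * κ ≤ x → x ≤ a - s → ‖F c ζ x‖ ≤ ‖F c ζ a‖ / (16 * m) := by
    intro x hx1 hx2
    have h2 := F_le (c := c) (ζ := ζ) (x := x) (y := a) (q := 1 - s * κ / 4) (by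
      intro i
      have h4 := D.dist_sq_le i
      have h5 := D.re_le i
      have h6 : ‖(a : ℂ) - ζ i‖ ^ 2 * (s * κ / 4) ≤ 4 * (s * κ / 4) := by gcongr
      have h7 : s * κ ≤ (a - x) * (a + x - 2 * (ζ i).re) :=
        mul_le_mul (by linarith) (by linarith) hκ0.le (by linarith)
      have h8 : ‖(x : ℂ) - ζ i‖ ^ 2 = ‖(a : ℂ) - ζ i‖ ^ 2 - (a - x) * (a + x - 2 * (ζ i).re) := by
        rw [nsq, nsq]
        simp only [sub_re, sub_im, ofReal_re, ofReal_im]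
        ring
      rw [h8]
      linarith)
    have h3 := D.hm2
    have h4 : (1 - s * κ / 4) ^ m * (1 + s * κ / 4) ^ m ≤ 1 := by
      rw [← mul_pow]
      apply pow_le_one₀
      · have : s * κ ≤ 1 := by nlinarith
        have : 0 ≤ s * κ := by positivity
        nlinarith
      · nlinarith [sq_nonneg (s * κ)]
    have h5 : (‖F c ζ x‖ * (16 * m)) ^ 2 ≤ ‖F c ζ a‖ ^ 2 := by
      rw [mul_pow]
      calc ‖F c ζ x‖ ^ 2 * (16 * (m : ℝ)) ^ 2 ≤ ((1 - s * κ / 4) ^ m * ‖F c ζ a‖ ^ 2) *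
            (1 + s * κ / 4) ^ m := by
            gcongr
            exact (sq_nonneg _).trans h2
        _ = ((1 - s * κ / 4) ^ m * (1 + s * κ / 4) ^ m) * ‖F c ζ a‖ ^ 2 := by ring
        _ ≤ 1 * ‖F c ζ a‖ ^ 2 := by gcongr
        _ = _ := one_mul _
    rw [le_div_iff₀ (by positivity)]
    exact le_of_sq_le_sq h5 (norm_nonneg _)
  have hP1 := (D.low_left (x := ((a - s : ℝ) : ℂ)) (y := s) (by linarith) (by linarith)
    (by simp) (by simp; positivity) (by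
      rw [← ofReal_sub, norm_real, Real.norm_eq_abs, abs_le]
      constructor <;> linarith)).1
  have hd : ∀ x ∈ Set.Icc (2 * κ) (a - s),
      HasDerivWithinAt (fun x : ℝ => P x) (F c ζ x) (Set.Icc (2 * κ) (a - s)) x := by
    intro x _
    exact (D.hP x).comp_ofReal.hasDerivWithinAt
  have h2 := norm_image_sub_le_of_norm_deriv_le_segment' hd
    (fun x hx => hb x hx.1 hx.2.le) (a - s) (Set.right_mem_Icc.2 hle)
  have h3 : ‖F c ζ a‖ / (16 * m) * (a - s - 2 * κ) ≤ ‖F c ζ a‖ / (16 * m) * 1 := by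
    gcongr
    linarith
  have h4 : ‖P ((a - s : ℝ) : ℂ)‖ ≤ ‖P ((a - s : ℝ) : ℂ) - P ((2 * κ : ℝ) : ℂ)‖ +
      ‖P ((2 * κ : ℝ) : ℂ)‖ := by
    have := norm_add_le (P ((a - s : ℝ) : ℂ) - P ((2 * κ : ℝ) : ℂ)) (P ((2 * κ : ℝ) : ℂ))
    rwa [sub_add_cancel] at this
  have e9 : ‖F c ζ a‖ / (8 * m) = ‖F c ζ a‖ / m * (1 / 8) := by field_simp
  have e10 : ‖F c ζ a‖ / (16 * m) = ‖F c ζ a‖ / m * (1 / 16) := by field_simp
  rw [e9] at hP1
  rw [e10] at h2 h3 ⊢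
  linarith

end Dat

end Pool.Agent.Q160.CritDist
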