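import Pool.Agent.Q160.CD2

set_option autoImplicit false

open Complex Finset Set Filter Topology

namespace Pool.Agent.Q160.CritDist

variable {m : ℕ}

/-- a monic polynomial is at least `ω ^ N` somewhere on the circle of radius `ω` -/
theorem exists_big {ι : Type*} (S : Finset ι) (b : ι → ℂ) {ω : ℝ} (hω : 0 < ω) :
    ∃ w : ℂ, ‖w‖ ≤ ω ∧ ω ^ S.card ≤ ‖∏ j ∈ S, (w - b j)‖ := by
  have hd : Differentiable ℂ (fun u : ℂ => ∏ j ∈ S, (1 - b j * u)) := by fun_prop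
  obtain ⟨u, hu, hmax⟩ := Complex.exists_mem_frontier_isMaxOn_norm
    (f := fun u : ℂ => ∏ j ∈ S, (1 - b j * u)) (U := Metric.ball (0 : ℂ) ω⁻¹)
    Metric.isBounded_ball ⟨0, Metric.mem_ball_self (by positivity)⟩ hd.diffContOnCl
  rw [frontier_ball _ (by positivity), mem_sphere_zero_iff_norm] at hu
  have h0 : (0 : ℂ) ∈ closure (Metric.ball (0 : ℂ) ω⁻¹) :=
    subset_closure (Metric.mem_ball_self (by positivity))
  have h1 := hmax h0
  simp only [mem_ofPred_eq, Function.comp, mul_zero, sub_zero, Finset.prod_const_one,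
    norm_one] at h1
  have hu0 : u ≠ 0 := by
    intro h
    rw [h, norm_zero] at hu
    have : 0 < ω⁻¹ := by positivity
    linarith
  refine ⟨u⁻¹, by rw [norm_inv, hu, inv_inv], ?_⟩
  have e : ∏ j ∈ S, (u⁻¹ - b j) = u⁻¹ ^ S.card * ∏ j ∈ S, (1 - b j * u) := by
    rw [← Finset.prod_const, ← Finset.prod_mul_distrib]
    refine Finset.prod_congr rfl (fun j _ => ?_)
    field_simp
  rw [e, norm_mul, norm_pow, norm_inv, hu, inv_inv]
  calc ω ^ S.card = ω ^ S.card * 1 := (mul_one _).symm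
    _ ≤ _ := by gcongr

theorem zeros_bound {n : ℕ} (z : Fin n → ℂ) {a s ω : ℝ} (_ha0 : 0 < a) (ha1 : a < 1) (hs0 : 0 < s)
    (hs : s ≤ (1 - a) / 10 ^ 7) (hsa : s ≤ a / 10 ^ 7) (hω0 : 0 < ω) (hω : ω ≤ s / 16)
    (hz : ∀ j, ‖z j‖ ≤ 1)
    (w : ℂ) (hw : ‖w‖ ≤ ω)
    (hw2 : ω ^ (Finset.univ.filter (fun j => ‖z j‖ ≤ (1 + a) / 2)).card ≤
      ‖∏ j ∈ Finset.univ.filter (fun j => ‖z j‖ ≤ (1 + a) / 2), (((a - s : ℝ) + w) - z j)‖) :
    ‖∏ j, (((a + s : ℝ) + w) - z j)‖ * ‖∏ j, (((a - 3 * s : ℝ) + w) - z j)‖ *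
      (ω ^ 2) ^ (Finset.univ.filter (fun j => ‖z j‖ ≤ (1 + a) / 2)).card ≤
    (1 + 16 * s ^ 2 / (1 - a) ^ 2) ^ n *
      4 ^ (Finset.univ.filter (fun j => ‖z j‖ ≤ (1 + a) / 2)).card *
      ‖∏ j, (((a - s : ℝ) + w) - z j)‖ ^ 2 := by
  set S := Finset.univ.filter (fun j => ‖z j‖ ≤ (1 + a) / 2) with hS
  set e := 16 * s ^ 2 / (1 - a) ^ 2 with he
  have he0 : 0 ≤ e := by positivity
  have h1a : 0 < 1 - a := by linarith
  set b : Fin n → ℝ := fun j => ‖((a - s : ℝ) + w) - z j‖ ^ 2 with hb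
  have hre : ∀ r : ℝ, |r| ≤ 1 - ω → ‖(r : ℂ) + w‖ ≤ 1 := by
    intro r hr
    refine (norm_add_le _ _).trans ?_
    rw [norm_real, Real.norm_eq_abs]
    linarith
  have hj : ∀ j, ‖((a + s : ℝ) + w) - z j‖ * ‖((a - 3 * s : ℝ) + w) - z j‖ ≤
      (1 + e) * (if ‖z j‖ ≤ (1 + a) / 2 then 4 else b j) := by
    intro j
    split_ifs with h
    · have h1 : ‖((a + s : ℝ) + w) - z j‖ ≤ 2 := by
        refine (norm_sub_le _ _).trans ?_
        have := hre (a + s) (by rw [abs_le]; constructor <;> linarith)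
        have := hz j
        linarith
      have h2 : ‖((a - 3 * s : ℝ) + w) - z j‖ ≤ 2 := by
        refine (norm_sub_le _ _).trans ?_
        have := hre (a - 3 * s) (by rw [abs_le]; constructor <;> linarith)
        have := hz j
        linarith
      calc ‖((a + s : ℝ) + w) - z j‖ * ‖((a - 3 * s : ℝ) + w) - z j‖ ≤ 2 * 2 :=
            mul_le_mul h1 h2 (norm_nonneg _) (by norm_num)
        _ ≤ _ := by nlinarith
    · rw [← norm_mul]
      have e1 : (((a + s : ℝ) + w) - z j) * (((a - 3 * s : ℝ) + w) - z j) =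
          (((a - s : ℝ) + w) - z j) ^ 2 - 4 * (s : ℂ) ^ 2 := by
        push_cast; ring
      rw [e1]
      push Not at h
      have h3 : (1 - a) / 2 ≤ ‖((a - s : ℝ) + w) - z j‖ := by
        have h4 : ‖z j‖ ≤ ‖((a - s : ℝ) + w) - z j‖ + ‖((a - s : ℝ) : ℂ) + w‖ := by
          have := norm_sub_le (((a - s : ℝ) + w)) (((a - s : ℝ) + w) - z j)
          rw [sub_sub_cancel] at this
          linarith
        have h5 : ‖((a - s : ℝ) : ℂ) + w‖ ≤ a := by
          refine (norm_add_le _ _).trans ?_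
          rw [norm_real, Real.norm_eq_abs, abs_of_nonneg (by linarith)]
          linarith
        linarith
      refine (norm_sub_le _ _).trans ?_
      rw [norm_pow, norm_mul, norm_pow, norm_real, Real.norm_of_nonneg hs0.le]
      have h6 : ((1 - a) / 2) ^ 2 ≤ b j := by
        simp only [hb]
        gcongr
      have h7 : ‖(4 : ℂ)‖ = 4 := by norm_num
      rw [h7]
      have h8 : 4 * s ^ 2 = e * ((1 - a) / 2) ^ 2 := by
        rw [he]; field_simp; ring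
      have h9 : e * ((1 - a) / 2) ^ 2 ≤ e * b j := by gcongr
      have h10 : ‖((a - s : ℝ) : ℂ) + w - z j‖ ^ 2 = b j := rfl
      rw [h10]
      linarith
  have hprod := Finset.prod_le_prod (s := (Finset.univ : Finset (Fin n)))
    (fun j _ => by positivity) (fun j _ => hj j)
  rw [Finset.prod_mul_distrib, ← norm_prod, ← norm_prod, Finset.prod_mul_distrib,
    Finset.prod_const, Finset.card_univ, Fintype.card_fin, Finset.prod_ite, Finset.prod_const]
    at hprod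
  have hsplit : ‖∏ j, (((a - s : ℝ) + w) - z j)‖ ^ 2 =
      ‖∏ j ∈ S, (((a - s : ℝ) + w) - z j)‖ ^ 2 *
        ∏ j ∈ Finset.univ.filter (fun j => ¬ ‖z j‖ ≤ (1 + a) / 2), b j := by
    rw [← Finset.prod_filter_mul_prod_filter_not Finset.univ (fun j => ‖z j‖ ≤ (1 + a) / 2)
      (fun j => (((a - s : ℝ) + w) - z j)), norm_mul, mul_pow]
    congr 1
    rw [norm_prod, ← Finset.prod_pow]
  rw [hsplit]
  have hbp : 0 ≤ ∏ j ∈ Finset.univ.filter (fun j => ¬ ‖z j‖ ≤ (1 + a) / 2), b j :=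
    Finset.prod_nonneg (fun j _ => by simp only [hb]; positivity)
  have hww : (ω ^ 2) ^ S.card ≤ ‖∏ j ∈ S, (((a - s : ℝ) + w) - z j)‖ ^ 2 := by
    rw [← pow_mul, mul_comm 2, pow_mul]
    gcongr
  calc _ ≤ ((1 + e) ^ n * (4 ^ S.card *
        ∏ j ∈ Finset.univ.filter (fun j => ¬ ‖z j‖ ≤ (1 + a) / 2), b j)) * (ω ^ 2) ^ S.card := by
        gcongr
    _ = (1 + e) ^ n * 4 ^ S.card * ((ω ^ 2) ^ S.card *
        ∏ j ∈ Finset.univ.filter (fun j => ¬ ‖z j‖ ≤ (1 + a) / 2), b j) := by ring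
    _ ≤ _ := by gcongr

theorem count_bound {n : ℕ} (z : Fin n → ℂ) {a t : ℝ} (ha1 : a < 1) (ha0 : 0 < a) (ht0 : 0 ≤ t)
    (ht : t ≤ (1 - a) / 4) (hz : ∀ j, ‖z j‖ ≤ 1) :
    ‖∏ j, ((t : ℂ) - z j)‖ ≤ (1 + t) ^ n *
      ((3 + a) / 4) ^ (Finset.univ.filter (fun j => ‖z j‖ ≤ (1 + a) / 2)).card := by
  have hj : ∀ j, ‖(t : ℂ) - z j‖ ≤ (1 + t) * (if ‖z j‖ ≤ (1 + a) / 2 then (3 + a) / 4 else 1) := by
    intro j
    have h1 : ‖(t : ℂ) - z j‖ ≤ t + ‖z j‖ := by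
      refine (norm_sub_le _ _).trans ?_
      rw [norm_real, Real.norm_of_nonneg ht0]
    split_ifs with h
    · nlinarith
    · have := hz j
      linarith
  rw [norm_prod]
  refine (Finset.prod_le_prod (fun j _ => norm_nonneg _) (fun j _ => hj j)).trans (le_of_eq ?_)
  rw [Finset.prod_mul_distrib, Finset.prod_const, Finset.card_univ, Fintype.card_fin,
    Finset.prod_ite, Finset.prod_const, Finset.prod_const_one, mul_one]

theorem Dat.final_ineq {a κ s : ℝ} {c : ℂ} {ζ : Fin m → ℂ} {P : ℂ → ℂ} (D : Dat m a κ s c ζ P)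
    (z : Fin (m + 1) → ℂ) (hz : ∀ j, ‖z j‖ ≤ 1) (hPz : ∀ x, P x = ∏ j, (x - z j))
    (hc : (m : ℝ) ≤ ‖c‖) {M : ℕ} (hM : ((3 + a) / 4) ^ M ≤ (a * s / 16) ^ 2 / 4) :
    (1 + a * s / 32) ^ m ≤ 4096 * (m : ℝ) ^ 4 * (1 + 16 * s ^ 2 / (1 - a) ^ 2) ^ (2 * (m + 1)) *
      (16 * (1 + 2 * κ) ^ (m + 1) / (1 - a * κ / 2) ^ m) ^ (2 * M) := by
  have h0 := D.ha0
  have h1 := D.ha1
  have hs := D.hs0
  have hs2 := D.s_le2
  have hs3 := D.s_le3
  have hm := D.m_pos
  have hκ0 := D.hκ0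
  have hκ1 := D.hκ1
  have hρ := D.rho_half
  set ω := a * s / 16 with hω
  have hω0 : 0 < ω := by positivity
  have hω1 : ω ≤ s / 16 := by nlinarith
  set S := Finset.univ.filter (fun j => ‖z j‖ ≤ (1 + a) / 2) with hS
  set N := S.card with hN
  set e := 16 * s ^ 2 / (1 - a) ^ 2 with he
  have he0 : 0 ≤ e := by positivity
  obtain ⟨w, hw, hwbig⟩ := exists_big S (fun j => z j - ((a - s : ℝ) : ℂ)) hω0
  have hwbig' : ω ^ S.card ≤ ‖∏ j ∈ S, (((a - s : ℝ) + w) - z j)‖ := by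
    refine hwbig.trans (le_of_eq ?_)
    congr 1
    refine Finset.prod_congr rfl (fun j _ => ?_)
    ring
  have hZ := zeros_bound z h0 h1 hs hs3 hs2 hω0 hω1 hz w hw hwbig'
  rw [← hPz, ← hPz, ← hPz] at hZ
  have hwre : |w.re| ≤ ω := (Complex.abs_re_le_norm _).trans hw
  have hwim : |w.im| ≤ ω := (Complex.abs_im_le_norm _).trans hw
  have hwre' := abs_le.1 hwre
  -- the four values
  set A := ‖F c ζ a‖ with hA
  have hLL := (D.low_left (x := ((a - 3 * s : ℝ) : ℂ) + w) (y := 3 * s - w.re) (by linarith)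
    (by linarith) (by simp; ring) (by
      simp only [add_im, ofReal_im, zero_add]
      refine hwim.trans ?_
      rw [hω]
      nlinarith) (by
      have : ((a - 3 * s : ℝ) : ℂ) + w - a = ((-(3 * s) : ℝ) : ℂ) + w := by push_cast; ring
      rw [this]
      refine (norm_add_le _ _).trans ?_
      rw [norm_real, norm_neg, Real.norm_of_nonneg (by positivity)]
      linarith)).1
  have hL := (D.low_left (x := ((a - s : ℝ) : ℂ) + w) (y := s - w.re) (by linarith)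
    (by linarith) (by simp; ring) (by
      simp only [add_im, ofReal_im, zero_add]
      refine hwim.trans ?_
      rw [hω]
      nlinarith) (by
      have : ((a - s : ℝ) : ℂ) + w - a = ((-s : ℝ) : ℂ) + w := by push_cast; ring
      rw [this]
      refine (norm_add_le _ _).trans ?_
      rw [norm_real, norm_neg, Real.norm_of_nonneg (by positivity)]
      linarith)).2
  obtain ⟨hR1, hR2⟩ := D.low_right (x := ((a + s : ℝ) : ℂ) + w) (y := s + w.re) (by linarith)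
    (by simp; ring) (by
      simp only [add_im, ofReal_im, zero_add]
      refine hwim.trans ?_
      rw [hω]
      nlinarith) (by
      have : ((a + s : ℝ) : ℂ) + w - a = (s : ℂ) + w := by push_cast; ring
      rw [this]
      refine (norm_add_le _ _).trans ?_
      rw [norm_real, Real.norm_of_nonneg (by positivity)]
      linarith)
  have ht := D.low_t1
  rw [hPz] at ht
  have hcnt := count_bound z h1 h0 (t := 2 * κ) (by positivity) (by linarith) hz
  -- size of A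
  have hAlow : (m : ℝ) * (1 - a * κ / 2) ^ m ≤ A := by
    rw [hA]
    unfold F
    rw [norm_mul]
    have h5 : (1 - a * κ / 2) ^ m ≤ ‖∏ i, ((a : ℂ) - ζ i)‖ := by
      rw [norm_prod]
      have := Finset.prod_le_prod (s := (Finset.univ : Finset (Fin m)))
        (f := fun _ => (1 - a * κ / 2)) (g := fun i => ‖(a : ℂ) - ζ i‖)
        (fun j _ => by linarith) (fun j _ => by
          rw [norm_sub_rev]; exact D.h2 j)
      rwa [Finset.prod_const, Finset.card_univ, Fintype.card_fin] at this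
    exact mul_le_mul hc h5 (by positivity) (by positivity)
  have hρm : 0 < (1 - a * κ / 2) ^ m := by positivity
  have hApos : 0 < A := lt_of_lt_of_le (by positivity) hAlow
  -- the number of zeros
  set R := 16 * (1 + 2 * κ) ^ (m + 1) / (1 - a * κ / 2) ^ m with hR
  have hRpos : 0 < R := by positivity
  have hη0 : 0 < (3 + a) / 4 := by positivity
  have hcount : 1 ≤ R * ((3 + a) / 4) ^ N := by
    have h5 : (1 - a * κ / 2) ^ m / 16 ≤ A / (16 * m) := by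
      rw [div_le_div_iff₀ (by positivity) (by positivity)]
      nlinarith
    have h6 : (1 - a * κ / 2) ^ m / 16 ≤ (1 + 2 * κ) ^ (m + 1) * ((3 + a) / 4) ^ N :=
      h5.trans (ht.trans hcnt)
    rw [hR]
    rw [div_mul_eq_mul_div, le_div_iff₀ hρm]
    linarith
  have hone : 1 ≤ (ω ^ 2 / 4) ^ N * R ^ M := by
    calc (1 : ℝ) ≤ (R * ((3 + a) / 4) ^ N) ^ M := one_le_pow₀ hcount
      _ = (((3 + a) / 4) ^ M) ^ N * R ^ M := by
          rw [mul_pow, ← pow_mul, ← pow_mul, mul_comm N M, mul_comm]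
      _ ≤ _ := by gcongr
  -- the main inequality
  set G := ‖F c ζ (((a + s : ℝ) : ℂ) + w)‖ with hG
  have hG0 : 0 ≤ G := norm_nonneg _
  have hmain : G * (ω ^ 2) ^ N ≤ 64 * (m : ℝ) ^ 2 * (1 + e) ^ (m + 1) * 4 ^ N * A := by
    have h5 : G / (8 * m) * (A / (8 * m)) * (ω ^ 2) ^ N ≤ (1 + e) ^ (m + 1) * 4 ^ N * A ^ 2 := by
      calc G / (8 * m) * (A / (8 * m)) * (ω ^ 2) ^ N
          ≤ ‖P (((a + s : ℝ) : ℂ) + w)‖ * ‖P (((a - 3 * s : ℝ) : ℂ) + w)‖ * (ω ^ 2) ^ N := by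
            gcongr
        _ ≤ (1 + e) ^ (m + 1) * 4 ^ N * ‖P (((a - s : ℝ) : ℂ) + w)‖ ^ 2 := hZ
        _ ≤ _ := by gcongr
    have h6 : G / (8 * m) * (A / (8 * m)) * (ω ^ 2) ^ N =
        (G * (ω ^ 2) ^ N) * (A / (64 * (m : ℝ) ^ 2)) := by
      field_simp
      ring
    rw [h6] at h5
    have h7 : (1 + e) ^ (m + 1) * 4 ^ N * A ^ 2 =
        (64 * (m : ℝ) ^ 2 * (1 + e) ^ (m + 1) * 4 ^ N * A) * (A / (64 * (m : ℝ) ^ 2)) := by
      field_simp
    rw [h7] at h5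
    exact le_of_mul_le_mul_right h5 (by positivity)
  have hsq : (1 + a * s / 32) ^ m * ((ω ^ 2) ^ N) ^ 2 ≤
      (64 * (m : ℝ) ^ 2 * (1 + e) ^ (m + 1) * 4 ^ N) ^ 2 := by
    have h5 : ((1 + a * s / 32) ^ m * ((ω ^ 2) ^ N) ^ 2) * A ^ 2 ≤
        ((64 * (m : ℝ) ^ 2 * (1 + e) ^ (m + 1) * 4 ^ N) ^ 2) * A ^ 2 := by
      calc ((1 + a * s / 32) ^ m * ((ω ^ 2) ^ N) ^ 2) * A ^ 2
          = ((1 + a * s / 32) ^ m * A ^ 2) * ((ω ^ 2) ^ N) ^ 2 := by ring
        _ ≤ G ^ 2 * ((ω ^ 2) ^ N) ^ 2 := by gcongr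
        _ = (G * (ω ^ 2) ^ N) ^ 2 := by ring
        _ ≤ (64 * (m : ℝ) ^ 2 * (1 + e) ^ (m + 1) * 4 ^ N * A) ^ 2 := by gcongr
        _ = _ := by ring
    exact le_of_mul_le_mul_right h5 (by positivity)
  calc (1 + a * s / 32) ^ m = (1 + a * s / 32) ^ m * 1 ^ 2 := by ring
    _ ≤ (1 + a * s / 32) ^ m * ((ω ^ 2 / 4) ^ N * R ^ M) ^ 2 := by gcongr
    _ = ((1 + a * s / 32) ^ m * ((ω ^ 2) ^ N) ^ 2) * (R ^ M) ^ 2 / ((4 : ℝ) ^ N) ^ 2 := by
        rw [div_pow]; field_simp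
    _ ≤ ((64 * (m : ℝ) ^ 2 * (1 + e) ^ (m + 1) * 4 ^ N) ^ 2) * (R ^ M) ^ 2 / ((4 : ℝ) ^ N) ^ 2 := by
        gcongr
    _ = _ := by
        rw [show 2 * (m + 1) = (m + 1) * 2 by ring, show 2 * M = M * 2 by ring, pow_mul, pow_mul]
        field_simp
        norm_num

end Pool.Agent.Q160.CritDist
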